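import Pool.Agent.H88.WR.Defs

/-!
Ranges for the weak maximizing property (MP_479f73_an): the statements.
-/

set_option autoImplicit false

open Filter Topology Set

namespace Pool.Agent.H88.WR

open Pool.Agent.H85.WMP

variable (𝕜 : Type) [RCLike 𝕜]

/-! ### Reflexive spaces and compact operators -/

/-- ES (Eberlein-Smulian for reflexive spaces). -/
def T_ES : Prop := ∀ (E : Type) [NormedAddCommGroup E] [NormedSpace 𝕜 E], Refl 𝕜 E →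
  ∀ (x : ℕ → E) (C : ℝ), (∀ n, ‖x n‖ ≤ C) → ∃ (z : E) (φ : ℕ → ℕ), StrictMono φ ∧
    ∀ f : StrongDual 𝕜 E, Tendsto (fun n => f (x (φ n))) atTop (𝓝 (f z))

/-- RFD: the dual of a reflexive space. -/
def T_RFD : Prop := ∀ (E : Type) [NormedAddCommGroup E] [NormedSpace 𝕜 E], Refl 𝕜 E →
  Refl 𝕜 (StrongDual 𝕜 E)

/-- RFI: isomorphic spaces. -/
def T_RFI : Prop := ∀ (E : Type) [NormedAddCommGroup E] [NormedSpace 𝕜 E]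
  (E' : Type) [NormedAddCommGroup E'] [NormedSpace 𝕜 E'], Nonempty (E' ≃L[𝕜] E) → Refl 𝕜 E →
  Refl 𝕜 E'

/-- ACI: isomorphic spaces and compact operators. -/
def T_ACI : Prop := ∀ (E : Type) [NormedAddCommGroup E] [NormedSpace 𝕜 E]
  (E' : Type) [NormedAddCommGroup E'] [NormedSpace 𝕜 E']
  (F : Type) [NormedAddCommGroup F] [NormedSpace 𝕜 F]
  (F' : Type) [NormedAddCommGroup F'] [NormedSpace 𝕜 F'],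
  Nonempty (E' ≃L[𝕜] E) → Nonempty (F' ≃L[𝕜] F) → AllCompact 𝕜 E F → AllCompact 𝕜 E' F'

/-- CPA: compact operators on reflexive spaces attain their norm. -/
def T_CPA : Prop := ∀ (E : Type) [NormedAddCommGroup E] [NormedSpace 𝕜 E]
  (F : Type) [NormedAddCommGroup F] [NormedSpace 𝕜 F], Refl 𝕜 E → AllCompact 𝕜 E F →
  HasWMP 𝕜 E F

/-- R1A: rank one operators. -/
def T_R1A : Prop := ∀ (E : Type) [NormedAddCommGroup E] [NormedSpace 𝕜 E]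
  (F : Type) [NormedAddCommGroup F] [NormedSpace 𝕜 F] [Nontrivial F], HasWMP 𝕜 E F →
  ∀ f : StrongDual 𝕜 E, ∃ x : E, ‖x‖ ≤ 1 ∧ ‖f x‖ = ‖f‖

/-- FIN: the identity. -/
def T_FIN : Prop := ∀ (E : Type) [NormedAddCommGroup E] [NormedSpace 𝕜 E],
  AllCompact 𝕜 E E ↔ FiniteDimensional 𝕜 E

/-- NCP: noncompact operators and weakly null sequences. -/
def T_NCP : Prop := ∀ (E : Type) [NormedAddCommGroup E] [NormedSpace 𝕜 E]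
  (F : Type) [NormedAddCommGroup F] [NormedSpace 𝕜 F] [CompleteSpace F], Refl 𝕜 E →
  ∀ T : E →L[𝕜] F, ¬ IsCompactOperator T → ∃ (x : ℕ → E) (C δ : ℝ), 0 < δ ∧
    (∀ n, ‖x n‖ ≤ C) ∧ WeaklyNull 𝕜 x ∧ ∀ n, δ ≤ ‖T (x n)‖

/-- NCD: noncompact operators and the dual. -/
def T_NCD : Prop := ∀ (E : Type) [NormedAddCommGroup E] [NormedSpace 𝕜 E]
  (F : Type) [NormedAddCommGroup F] [NormedSpace 𝕜 F] [CompleteSpace F], Refl 𝕜 E →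
  ∀ T : E →L[𝕜] F, ¬ IsCompactOperator T → ∃ (ψ : ℕ → StrongDual 𝕜 F) (C : ℝ),
    (∀ n, ‖ψ n‖ ≤ C) ∧ (∀ n, ‖(ψ n).comp T‖ = 1) ∧
    ∀ x : E, Tendsto (fun n => ψ n (T x)) atTop (𝓝 0)

/-! ### Renormings -/

/-- REN: a new norm on the range. -/
def T_REN : Prop := ∀ (F : Type) [NormedAddCommGroup F] [NormedSpace 𝕜 F]
  (φ : ℕ → StrongDual 𝕜 F) (M ε : ℝ), (∀ n, ‖φ n‖ ≤ M) → 0 < ε →
  ∃ (F' : Type) (_ : NormedAddCommGroup F') (_ : NormedSpace 𝕜 F') (e : F' ≃L[𝕜] F),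
    ∀ y : F', ‖y‖ = max (ε * ‖e y‖) (⨆ n, ‖φ n (e y)‖)

/-- RED: a new norm on the domain. -/
def T_RED : Prop := ∀ (E : Type) [NormedAddCommGroup E] [NormedSpace 𝕜 E]
  (Q : Set (StrongDual 𝕜 E)) (r R : ℝ), 0 < r → (∀ φ, ‖φ‖ ≤ r → φ ∈ Q) →
  (∀ φ ∈ Q, ‖φ‖ ≤ R) →
  ∃ (E' : Type) (_ : NormedAddCommGroup E') (_ : NormedSpace 𝕜 E') (e : E' ≃L[𝕜] E),
    ∀ x : E', (∀ φ ∈ Q, ‖φ (e x)‖ ≤ ‖x‖) ∧ ∀ c : ℝ, (∀ φ ∈ Q, ‖φ (e x)‖ ≤ c) → ‖x‖ ≤ c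

/-- RNE: an embedding becomes isometric for a new norm on the range. -/
def T_RNE : Prop := ∀ (G : Type) [NormedAddCommGroup G] [NormedSpace 𝕜 G]
  (F : Type) [NormedAddCommGroup F] [NormedSpace 𝕜 F] (S : G →L[𝕜] F) (c : ℝ), 0 < c →
  (∀ x, c * ‖x‖ ≤ ‖S x‖) →
  ∃ (F' : Type) (_ : NormedAddCommGroup F') (_ : NormedSpace 𝕜 F') (_ : F' ≃L[𝕜] F),
    Nonempty (G →ₗᵢ[𝕜] F')

/-- WN1: norming vectors are weakly null. -/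
def T_WN1 : Prop := ∀ (E : Type) [NormedAddCommGroup E] [NormedSpace 𝕜 E]
  (F : Type) [NormedAddCommGroup F] [NormedSpace 𝕜 F], AWR 𝕜 E F →
  ∀ (T : E →L[𝕜] F) (φ : ℕ → StrongDual 𝕜 F) (M : ℝ) (f : StrongDual 𝕜 E) (x : ℕ → E),
  (∀ n, ‖φ n‖ ≤ M) → (∀ n, ‖(φ n).comp T‖ ≤ 1) →
  (∀ z : E, Tendsto (fun n => φ n (T z)) atTop (𝓝 (f z))) → (∀ z : E, ‖z‖ = 1 → ‖f z‖ < 1) →
  (∀ n, ‖x n‖ = 1) → Tendsto (fun n => ‖φ n (T (x n))‖) atTop (𝓝 1) → WeaklyNull 𝕜 x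

/-- WN2: norms of sums. -/
def T_WN2 : Prop := ∀ (E : Type) [NormedAddCommGroup E] [NormedSpace 𝕜 E]
  (F : Type) [NormedAddCommGroup F] [NormedSpace 𝕜 F], AWR 𝕜 E F →
  ∀ (T : E →L[𝕜] F) (ψ : ℕ → StrongDual 𝕜 F) (M : ℝ) (θ : StrongDual 𝕜 F) (η : ℝ),
  (∀ n, ‖ψ n‖ ≤ M) → (∀ n, ‖(ψ n).comp T‖ = 1) →
  (∀ z : E, Tendsto (fun n => ψ n (T z)) atTop (𝓝 0)) → 0 < η →
  ∀ᶠ n in atTop, ‖(θ + ψ n).comp T‖ ≤ max ‖θ.comp T‖ 1 + η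

/-- WN3: the contradiction. -/
def T_WN3 : Prop := ∀ (E : Type) [NormedAddCommGroup E] [NormedSpace 𝕜 E]
  (F : Type) [NormedAddCommGroup F] [NormedSpace 𝕜 F], AWR 𝕜 E F →
  ∀ (T : E →L[𝕜] F) (ψ : ℕ → StrongDual 𝕜 F) (M : ℝ), (∀ n, ‖ψ n‖ ≤ M) →
  (∀ n, ‖(ψ n).comp T‖ = 1) → ¬ ∀ z : E, Tendsto (fun n => ψ n (T z)) atTop (𝓝 0)

/-- DOM: renormings of the domain. -/
def T_DOM : Prop := ∀ (E : Type) [NormedAddCommGroup E] [NormedSpace 𝕜 E]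
  (F : Type) [NormedAddCommGroup F] [NormedSpace 𝕜 F], AWD 𝕜 E F →
  ∀ (T : E →L[𝕜] F) (x : ℕ → E) (C δ : ℝ), 0 < δ → (∀ n, ‖x n‖ ≤ C) → WeaklyNull 𝕜 x →
  ¬ ∀ n, δ ≤ ‖T (x n)‖

/-! ### James' theorem -/

/-- HEL (Helly). -/
def T_HEL : Prop := ∀ (E : Type) [NormedAddCommGroup E] [NormedSpace 𝕜 E]
  (Φ : StrongDual 𝕜 (StrongDual 𝕜 E)) (k : ℕ) (g : Fin k → StrongDual 𝕜 E), ‖Φ‖ < 1 →
  ∃ y : E, ‖y‖ ≤ 1 ∧ ∀ i, g i y = Φ (g i)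

/-- JTH: the sequences of James in nonreflexive spaces. -/
def T_JTH : Prop := ∀ (E : Type) [NormedAddCommGroup E] [NormedSpace 𝕜 E] [CompleteSpace E],
  ¬ Refl 𝕜 E → ∃ (θ : ℝ) (f : ℕ → StrongDual 𝕜 E) (x : ℕ → E), 0 < θ ∧ (∀ n, ‖f n‖ ≤ 1) ∧
    (∀ n, ‖x n‖ ≤ 1) ∧ (∀ n j, n ≤ j → f n (x j) = ((θ : ℝ) : 𝕜)) ∧ ∀ n j, j < n → f n (x j) = 0

/-- JTL: such sequences are far from their limits. -/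
def T_JTL : Prop := ∀ (E : Type) [NormedAddCommGroup E] [NormedSpace 𝕜 E]
  (θ : ℝ) (f : ℕ → StrongDual 𝕜 E) (x : ℕ → E), 0 < θ → (∀ n, ‖f n‖ ≤ 1) →
  (∀ n, ‖x n‖ ≤ 1) → (∀ n j, n ≤ j → f n (x j) = ((θ : ℝ) : 𝕜)) →
  (∀ n j, j < n → f n (x j) = 0) →
  ∀ u ∈ convexHull ℝ (range f), ∀ w ∈ Lm 𝕜 E f, θ ≤ ‖u - w‖

/-- JLM: elementary properties of the sets of limits. -/
def T_JLM : Prop := ∀ (E : Type) [NormedAddCommGroup E] [NormedSpace 𝕜 E],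
  (∀ h : ℕ → StrongDual 𝕜 E, (∀ n, ‖h n‖ ≤ 1) → (Lm 𝕜 E h).Nonempty ∧
    (∀ w ∈ Lm 𝕜 E h, ‖w‖ ≤ 1) ∧
    ∀ w ∈ Lm 𝕜 E h, ∀ (x : E) (ε : ℝ), 0 < ε →
      ∃ᶠ n in atTop, RCLike.re (h n x) < RCLike.re (w x) + ε) ∧
  (∀ h g k : ℕ → StrongDual 𝕜 E, Blk 𝕜 E h g → Blk 𝕜 E g k → Blk 𝕜 E h k) ∧
  (∀ (h : ℕ → StrongDual 𝕜 E) (φ : ℕ → ℕ), StrictMono φ → Blk 𝕜 E h (h ∘ φ)) ∧
  ∀ h g : ℕ → StrongDual 𝕜 E, (∀ n, ‖h n‖ ≤ 1) → Blk 𝕜 E h g →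
    (∀ n, ‖g n‖ ≤ 1) ∧ Lm 𝕜 E g ⊆ Lm 𝕜 E h

/-- JSQ: the choice of the blocks. -/
def T_JSQ : Prop := ∀ (E : Type) [NormedAddCommGroup E] [NormedSpace 𝕜 E]
  (f : ℕ → StrongDual 𝕜 E) (θ : ℝ) (B ε : ℕ → ℝ), (∀ n, ‖f n‖ ≤ 1) → 0 < θ →
  (∀ u ∈ convexHull ℝ (range f), ∀ w ∈ Lm 𝕜 E f, θ ≤ ‖u - w‖) → B 0 = 1 →
  (∀ n, 0 < B n ∧ B (n + 1) < B n) → (∀ n, 0 < ε n) →
  ∃ (g : ℕ → StrongDual 𝕜 E) (α : ℕ → ℝ), Blk 𝕜 E f g ∧ Monotone α ∧ (∀ n, θ ≤ α n) ∧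
    (∀ n, α n ≤ 2) ∧ ∀ w ∈ Lm 𝕜 E g, ∀ n,
      ‖(∑ j ∈ Finset.range n, (B j - B (j + 1)) • g j + B n • g n) - w‖ ≤ α n * (1 + ε n) ∧
      α n * (1 - ε n) ≤ ‖(∑ j ∈ Finset.range n, (B j - B (j + 1)) • g j + B n • g n) - w‖

/-- JFN: the functional which does not attain its norm. -/
def T_JFN : Prop := ∀ (E : Type) [NormedAddCommGroup E] [NormedSpace 𝕜 E]
  (f : ℕ → StrongDual 𝕜 E) (θ : ℝ), (∀ n, ‖f n‖ ≤ 1) → 0 < θ →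
  (∀ u ∈ convexHull ℝ (range f), ∀ w ∈ Lm 𝕜 E f, θ ≤ ‖u - w‖) →
  ∃ h : StrongDual 𝕜 E, ∀ x : E, ‖x‖ ≤ 1 → ‖h x‖ ≠ ‖h‖

/-- JAM (James' theorem). -/
def T_JAM : Prop := ∀ (E : Type) [NormedAddCommGroup E] [NormedSpace 𝕜 E] [CompleteSpace E],
  (∀ f : StrongDual 𝕜 E, ∃ x : E, ‖x‖ ≤ 1 ∧ ‖f x‖ = ‖f‖) → Refl 𝕜 E

/-! ### Families of finite sets -/

/-- FHS: the family of a tree is hereditary and spreading. -/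
def T_FHS : Prop := ∀ Tr : ℕ → List ℕ → Prop, WFT Tr → HS (FamT Tr)

/-- FSC: it contains the small sets. -/
def T_FSC : Prop := ∀ Tr : ℕ → List ℕ → Prop, WFT Tr → ∅ ∈ FamT Tr ∧ (∀ n, {n} ∈ FamT Tr) ∧
  ∀ (A : Finset ℕ) (n : ℕ), (∀ a ∈ A, n ≤ a) → A.card ≤ n → A ∈ FamT Tr

/-- PTU: Ptak's property for two families. -/
def T_PTU : Prop := ∀ M M' : Set (Finset ℕ), HS M → HS M' → Ptak M → Ptak M' →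
  Ptak (M ∪ M')

/-- PTD: Ptak's property for a diagonal union. -/
def T_PTD : Prop := ∀ M : ℕ → Set (Finset ℕ), (∀ k, HS (M k)) → (∀ k, Ptak (M k)) →
  Ptak {A | ∃ n k, (∀ a ∈ A.erase n, n < a ∧ k ≤ a) ∧ A.erase n ∈ M k}

/-- PTF: the family of a tree without infinite branches. -/
def T_PTF : Prop := ∀ Tr : ℕ → List ℕ → Prop, WFT Tr → Ptak (FamT Tr)

/-- FNB: no sequence of labels stays in the tree. -/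
def T_FNB : Prop := ∀ Tr : ℕ → List ℕ → Prop, WFT Tr → ∀ (m : ℕ → ℕ), StrictMono m →
  ∀ (k : ℕ → ℕ) (C : ℕ), ∃ (j : ℕ → ℕ) (r : ℕ), StrictMono j ∧
    (Finset.range r).image (fun i => m (j i)) ∈ FamT Tr ∧
    ¬ Tr C ((List.range r).map fun i => k (j i))

/-! ### Sequences equivalent to the basis of `c_0` -/

/-- BP (Bessaga-Pelczynski). -/
def T_BP : Prop := ∀ (F : Type) [NormedAddCommGroup F] [NormedSpace 𝕜 F]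
  (y : ℕ → F) (δ K : ℝ), 0 < δ → (∀ n, δ ≤ ‖y n‖) →
  (∀ (s : Finset ℕ) (a : ℕ → 𝕜), (∀ i ∈ s, ‖a i‖ ≤ 1) → ‖∑ i ∈ s, a i • y i‖ ≤ K) →
  HasC0 𝕜 F

/-- FAM: the family for a space which does not contain `c_0`. -/
def T_FAM : Prop := ∀ (F : Type) [NormedAddCommGroup F] [NormedSpace 𝕜 F]
  [TopologicalSpace.SeparableSpace F], ¬ HasC0 𝕜 F →
  ∃ M : Set (Finset ℕ), Good M ∧ ∀ (m : ℕ → ℕ) (y : ℕ → F) (δ K : ℝ), StrictMono m → 0 < δ →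
    (∀ j, δ ≤ ‖y j‖) → ¬ ∀ s : Finset ℕ, s.image m ∈ M → ∀ a : ℕ → 𝕜, (∀ i, ‖a i‖ ≤ 1) →
      ‖∑ i ∈ s, a i • y i‖ ≤ K

/-- C0S: a copy of the space of convergent sequences. -/
def T_C0S : Prop := ∀ (F : Type) [NormedAddCommGroup F] [NormedSpace 𝕜 F] [CompleteSpace F],
  HasC0 𝕜 F → ∃ (S : C(OnePoint ℕ, 𝕜) →L[𝕜] F) (c : ℝ), 0 < c ∧ ∀ x, c * ‖x‖ ≤ ‖S x‖

/-! ### The space of the family `M` -/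

/-- TNE: the norm. -/
def T_TNE : Prop := ∀ M : Set (Finset ℕ), ∅ ∈ M → ∃ N : (ℕ →₀ 𝕜) → ℝ, TN 𝕜 M N

/-- SPE: the space. -/
def T_SPE : Prop := ∀ (M : Set (Finset ℕ)) (N : (ℕ →₀ 𝕜) → ℝ), TN 𝕜 M N →
  Nonempty (Spc 𝕜 N)

/-- AVG: averages of blocks. -/
def T_AVG : Prop := ∀ (M : Set (Finset ℕ)) (N : (ℕ →₀ 𝕜) → ℝ), Good M → TN 𝕜 M N →
  ∀ (m : ℕ → ℕ) (x : ℕ → (ℕ →₀ 𝕜)), Blocks m x → (∀ j, N (x j) ≤ 1) → ∀ (ε : ℝ) (J : ℕ),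
  0 < ε → ∃ w : ℕ →₀ ℝ, Cvx {j | J ≤ j} w ∧
    N (∑ j ∈ w.support, ((w j : ℝ) : 𝕜) • x j) ≤ 1 / 2 + ε

/-- SML: small averages. -/
def T_SML : Prop := ∀ (M : Set (Finset ℕ)) (N : (ℕ →₀ 𝕜) → ℝ), Good M → TN 𝕜 M N →
  ∀ (m : ℕ → ℕ) (x : ℕ → (ℕ →₀ 𝕜)), Blocks m x → (∀ j, N (x j) ≤ 1) → ∀ δ : ℝ,
  0 < δ → ∃ w : ℕ →₀ ℝ, Cvx Set.univ w ∧ N (∑ j ∈ w.support, ((w j : ℝ) : 𝕜) • x j) ≤ δ

/-- PRJ: projections of functionals. -/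
def T_PRJ : Prop := ∀ (M : Set (Finset ℕ)) (N : (ℕ →₀ 𝕜) → ℝ), TN 𝕜 M N →
  ∀ (S : Spc 𝕜 N) (b : S.D) (p : ℕ → Prop) [DecidablePred p],
  ∃ b' : S.D, ‖b'‖ ≤ ‖b‖ ∧ ∀ x : ℕ →₀ 𝕜, b' (S.e x) = b (S.e (x.filter p))

/-- BLK: upper estimates for admissible blocks in the dual. -/
def T_BLK : Prop := ∀ (M : Set (Finset ℕ)) (N : (ℕ →₀ 𝕜) → ℝ), TN 𝕜 M N →
  ∀ (S : Spc 𝕜 N) (A : Finset ℕ) (b : ℕ → S.D) (C : ℝ), A ∈ M → (∀ a ∈ A, ‖b a‖ ≤ C) →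
  (∀ a ∈ A, SuppIn S (b a) (Cell A a)) → 0 ≤ C → ‖∑ a ∈ A, b a‖ ≤ 2 * C

/-- TAI: the tails of the functionals are small. -/
def T_TAI : Prop := ∀ (M : Set (Finset ℕ)) (N : (ℕ →₀ 𝕜) → ℝ), Good M → TN 𝕜 M N →
  ∀ (S : Spc 𝕜 N) (b : S.D) (δ : ℝ), 0 < δ →
  ∃ n : ℕ, ∀ x : ℕ →₀ 𝕜, ‖b (S.e (x.filter (n ≤ ·)))‖ ≤ δ * N x

/-- CAU: a bounded sequence of partial sums converges. -/
def T_CAU : Prop := ∀ (M : Set (Finset ℕ)) (N : (ℕ →₀ 𝕜) → ℝ), Good M → TN 𝕜 M N →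
  ∀ (a : ℕ → 𝕜) (C : ℝ), (∀ n, N (∑ i ∈ Finset.range n, Finsupp.single i (a i)) ≤ C) →
  ∀ δ : ℝ, 0 < δ → ∃ n₀, ∀ n, n₀ ≤ n →
    N (∑ i ∈ Finset.Ico n₀ n, Finsupp.single i (a i)) ≤ δ

/-- RFX: the dual is reflexive. -/
def T_RFX : Prop := ∀ (M : Set (Finset ℕ)) (N : (ℕ →₀ 𝕜) → ℝ), Good M → TN 𝕜 M N →
  ∀ S : Spc 𝕜 N, Refl 𝕜 S.D

/-- IND: the dual is infinite-dimensional. -/
def T_IND : Prop := ∀ (M : Set (Finset ℕ)) (N : (ℕ →₀ 𝕜) → ℝ), TN 𝕜 M N →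
  ∀ S : Spc 𝕜 N, ¬ FiniteDimensional 𝕜 S.D

/-- OPB: a noncompact operator is not small on a sequence of blocks. -/
def T_OPB : Prop := ∀ (M : Set (Finset ℕ)) (N : (ℕ →₀ 𝕜) → ℝ), Good M → TN 𝕜 M N →
  ∀ (S : Spc 𝕜 N) (F : Type) [NormedAddCommGroup F] [NormedSpace 𝕜 F] [CompleteSpace F]
  (T : S.D →L[𝕜] F), ¬ IsCompactOperator T →
  ∃ (m : ℕ → ℕ) (b : ℕ → S.D) (C δ : ℝ), StrictMono m ∧ 0 < δ ∧ 0 ≤ C ∧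
    (∀ j, SuppIn S (b j) (fun i => m j ≤ i ∧ i < m (j + 1))) ∧ (∀ j, ‖b j‖ ≤ C) ∧
    ∀ j, δ ≤ ‖T (b j)‖

/-- OPM: hence upper estimates in the range. -/
def T_OPM : Prop := ∀ (M : Set (Finset ℕ)) (N : (ℕ →₀ 𝕜) → ℝ), Good M → TN 𝕜 M N →
  ∀ (S : Spc 𝕜 N) (F : Type) [NormedAddCommGroup F] [NormedSpace 𝕜 F] [CompleteSpace F]
  (T : S.D →L[𝕜] F), ¬ IsCompactOperator T →
  ∃ (m : ℕ → ℕ) (y : ℕ → F) (δ K : ℝ), StrictMono m ∧ 0 < δ ∧ (∀ j, δ ≤ ‖y j‖) ∧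
    ∀ s : Finset ℕ, s.image m ∈ M → ∀ a : ℕ → 𝕜, (∀ i, ‖a i‖ ≤ 1) →
      ‖∑ i ∈ s, a i • y i‖ ≤ K

/-- KEY: a reflexive space with compact operators only. -/
def T_KEY : Prop := ∀ (F : Type) [NormedAddCommGroup F] [NormedSpace 𝕜 F] [CompleteSpace F]
  [TopologicalSpace.SeparableSpace F], ¬ HasC0 𝕜 F →
  ∃ (E : Type) (_ : NormedAddCommGroup E) (_ : NormedSpace 𝕜 E) (_ : CompleteSpace E),
    ¬ FiniteDimensional 𝕜 E ∧ Refl 𝕜 E ∧ AllCompact 𝕜 E F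

/-! ### The theorems -/

/-- THA: the isomorphic characterisation. -/
def T_THA : Prop := ∀ (E : Type) [NormedAddCommGroup E] [NormedSpace 𝕜 E] [CompleteSpace E]
  (F : Type) [NormedAddCommGroup F] [NormedSpace 𝕜 F] [CompleteSpace F] [Nontrivial F],
  (AWR 𝕜 E F ↔ Refl 𝕜 E ∧ AllCompact 𝕜 E F) ∧ (AWD 𝕜 E F ↔ Refl 𝕜 E ∧ AllCompact 𝕜 E F)

/-- THB: universal test ranges. -/
def T_THB : Prop := ∀ (F : Type) [NormedAddCommGroup F] [NormedSpace 𝕜 F] [CompleteSpace F]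
  [TopologicalSpace.SeparableSpace F],
  (HasC0 𝕜 F ↔ ∃ (F' : Type) (_ : NormedAddCommGroup F') (_ : NormedSpace 𝕜 F')
    (_ : F' ≃L[𝕜] F), ∀ (E : Type) [NormedAddCommGroup E] [NormedSpace 𝕜 E] [CompleteSpace E],
      HasWMP 𝕜 E F' ↔ FiniteDimensional 𝕜 E) ∧
  (HasC0 𝕜 F ↔ ∀ (E : Type) [NormedAddCommGroup E] [NormedSpace 𝕜 E] [CompleteSpace E],
    ¬ FiniteDimensional 𝕜 E → ¬ AWR 𝕜 E F) ∧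
  (HasC0 𝕜 F ↔ ∀ (E : Type) [NormedAddCommGroup E] [NormedSpace 𝕜 E] [CompleteSpace E],
    ¬ FiniteDimensional 𝕜 E → Refl 𝕜 E → ¬ AllCompact 𝕜 E F)

end Pool.Agent.H88.WR
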