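import Mathlib
import Pool.Agent.H85.WMPDefs

/-!
Ranges for the weak maximizing property (MP_479f73_an): definitions.
-/

set_option autoImplicit false

open Filter Topology Set

namespace Pool.Agent.H88.WR

open Pool.Agent.H85.WMP

section

variable (𝕜 : Type) [RCLike 𝕜] (E : Type) [NormedAddCommGroup E] [NormedSpace 𝕜 E]
  (F : Type) [NormedAddCommGroup F] [NormedSpace 𝕜 F]

/-- `E` is reflexive -/
def Refl : Prop := Function.Surjective (NormedSpace.inclusionInDoubleDual 𝕜 E)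

/-- every bounded operator from `E` to `F` is compact -/
def AllCompact : Prop := ∀ T : E →L[𝕜] F, IsCompactOperator T

/-- `F` contains an isomorphic copy of `c_0`: there is a sequence which is equivalent to the unit
vector basis of `c_0` -/
def HasC0 : Prop := ∃ (y : ℕ → F) (c C : ℝ), 0 < c ∧
  ∀ (s : Finset ℕ) (a : ℕ → 𝕜) (M : ℝ), 0 ≤ M → (∀ i ∈ s, ‖a i‖ ≤ M) →
    ‖∑ i ∈ s, a i • y i‖ ≤ C * M ∧ ∀ i ∈ s, c * ‖a i‖ ≤ ‖∑ i ∈ s, a i • y i‖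

/-- `(E, F')` has the WMP for every space `F'` isomorphic to `F` -/
def AWR : Prop := ∀ (F' : Type) [NormedAddCommGroup F'] [NormedSpace 𝕜 F'],
  Nonempty (F' ≃L[𝕜] F) → HasWMP 𝕜 E F'

/-- `(E', F)` has the WMP for every space `E'` isomorphic to `E` -/
def AWD : Prop := ∀ (E' : Type) [NormedAddCommGroup E'] [NormedSpace 𝕜 E'],
  Nonempty (E' ≃L[𝕜] E) → HasWMP 𝕜 E' F

end

/-! ### Families of finite sets -/

/-- the family `M` is closed under: `A ∈ M`, `f : B → A` strictly increasing with `f b ≤ b`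
imply `B ∈ M` (hereditary and spreading) -/
def HS (M : Set (Finset ℕ)) : Prop := ∀ A ∈ M, ∀ (B : Finset ℕ) (f : ℕ → ℕ),
  (∀ b ∈ B, f b ∈ A ∧ f b ≤ b) → StrictMonoOn f (B : Set ℕ) → B ∈ M

/-- a convex combination on the set `L` -/
def Cvx (L : Set ℕ) (w : ℕ →₀ ℝ) : Prop :=
  (∀ n, 0 ≤ w n) ∧ (w.sum fun _ r => r) = 1 ∧ ∀ n ∈ w.support, n ∈ L

/-- the weight of `A` -/
def wt (w : ℕ →₀ ℝ) (A : Finset ℕ) : ℝ := ∑ a ∈ A, w a

/-- the property in the lemma of Ptak -/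
def Ptak (M : Set (Finset ℕ)) : Prop := ∀ L : Set ℕ, L.Infinite → ∀ ε : ℝ, 0 < ε →
  ∃ w : ℕ →₀ ℝ, Cvx L w ∧ ∀ A ∈ M, wt w A ≤ ε

/-- admissible families -/
structure Good (M : Set (Finset ℕ)) : Prop where
  hs : HS M
  empty : ∅ ∈ M
  single : ∀ n, {n} ∈ M
  sch : ∀ (A : Finset ℕ) (n : ℕ), (∀ a ∈ A, n ≤ a) → A.card ≤ n → A ∈ M
  ptak : Ptak M

/-- the cell of `a ∈ A`: `i` belongs to it if `a` is the largest element of `A` below `i` -/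
def Cell (A : Finset ℕ) (a i : ℕ) : Prop := a ≤ i ∧ ∀ b ∈ A, b ≤ i → b ≤ a

instance (A : Finset ℕ) (a : ℕ) : DecidablePred (Cell A a) := fun i => by
  unfold Cell
  infer_instance

/-- the Tsirelson type norm of the family `M` -/
structure TN (𝕜 : Type) [RCLike 𝕜] (M : Set (Finset ℕ)) (N : (ℕ →₀ 𝕜) → ℝ) : Prop where
  add : ∀ x y, N (x + y) ≤ N x + N y
  smul : ∀ (c : 𝕜) x, N (c • x) = ‖c‖ * N x
  coord : ∀ x i, ‖x i‖ ≤ N x
  single : ∀ i, N (Finsupp.single i 1) ≤ 1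
  filter : ∀ (p : ℕ → Prop) [DecidablePred p] x, N (x.filter p) ≤ N x
  adm : ∀ A ∈ M, ∀ x : ℕ →₀ 𝕜, ∑ a ∈ A, N (x.filter (Cell A a)) ≤ 2 * N x
  upp : ∀ (x : ℕ →₀ 𝕜) (c : ℝ), (∀ i, ‖x i‖ ≤ c) →
    (∀ A ∈ M, ∑ a ∈ A, N (x.filter (Cell A a)) ≤ 2 * c) → N x ≤ c

/-- `x j` is supported in `[m j, m (j + 1))` -/
def Blocks {𝕜 : Type} [RCLike 𝕜] (m : ℕ → ℕ) (x : ℕ → (ℕ →₀ 𝕜)) : Prop :=
  StrictMono m ∧ ∀ j i, x j i ≠ 0 → m j ≤ i ∧ i < m (j + 1)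

/-- a normed space with the norm `N` -/
structure Spc (𝕜 : Type) [RCLike 𝕜] (N : (ℕ →₀ 𝕜) → ℝ) where
  X : Type
  i1 : NormedAddCommGroup X
  i2 : NormedSpace 𝕜 X
  e : (ℕ →₀ 𝕜) ≃ₗ[𝕜] X
  norm_e : ∀ x, ‖e x‖ = N x

attribute [instance] Spc.i1 Spc.i2

/-- the dual of the space -/
abbrev Spc.D {𝕜 : Type} [RCLike 𝕜] {N : (ℕ →₀ 𝕜) → ℝ} (S : Spc 𝕜 N) : Type :=
  StrongDual 𝕜 S.X

/-- the functional `b` is supported in `p` -/
def SuppIn {𝕜 : Type} [RCLike 𝕜] {N : (ℕ →₀ 𝕜) → ℝ} (S : Spc 𝕜 N) (b : S.D)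
    (p : ℕ → Prop) [DecidablePred p] : Prop :=
  ∀ x : ℕ →₀ 𝕜, b (S.e x) = b (S.e (x.filter p))

/-- the family of a tree `Tr C`, `C ∈ ℕ`, of finite sequences -/
def FamT (Tr : ℕ → List ℕ → Prop) : Set (Finset ℕ) :=
  {A | A = ∅ ∨ ∃ (C : ℕ) (s : List ℕ), Tr C s ∧ (∀ a ∈ A, C ≤ a) ∧
    List.Forall₂ (· ≤ ·) s (A.sort (· ≤ ·)).tail}

/-- trees without infinite branches -/
structure WFT (Tr : ℕ → List ℕ → Prop) : Prop where
  short : ∀ C s, s.length ≤ C → Tr C s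
  pre : ∀ C s t, Tr C (s ++ t) → Tr C s
  nobr : ∀ C (k : ℕ → ℕ), ∃ r, ¬ Tr C ((List.range r).map k)

/-! ### James' theorem -/

section

variable (𝕜 : Type) [RCLike 𝕜] (E : Type) [NormedAddCommGroup E] [NormedSpace 𝕜 E]

/-- the functionals below the upper limit of the sequence `h` -/
def Lm (h : ℕ → StrongDual 𝕜 E) : Set (StrongDual 𝕜 E) :=
  {w | ∀ x : E, RCLike.re (w x) ≤ limsup (fun n => RCLike.re (h n x)) atTop}

/-- `g` is a sequence of convex blocks of `h` -/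
def Blk (h g : ℕ → StrongDual 𝕜 E) : Prop :=
  ∀ n, g n ∈ convexHull ℝ (h '' {k | n ≤ k})

end

end Pool.Agent.H88.WR
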