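import Pool.Agent.H88.WR.Targets
import Pool.Agent.H85.JNBasic

/-!
NCD: noncompact operators and the dual.
-/

set_option autoImplicit false

open Filter Topology Set Pool.Agent.H85.WMP

namespace Pool.Agent.H88.WR

theorem pf_NCD (𝕜 : Type) [RCLike 𝕜] (hES : T_ES 𝕜) (hRFD : T_RFD 𝕜) (hNCP : T_NCP 𝕜) :
    T_NCD 𝕜 := by
  intro E _ _ F _ _ _ hE T hT
  obtain ⟨x, C₀, δ, hδ, hxC, hxw, hTx⟩ := hNCP E F hE T hT
  have hC₀ : 0 < C₀ := by
    have h0 : x 0 ≠ 0 := by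
      intro h
      have := hTx 0
      rw [h, map_zero, norm_zero] at this
      linarith
    exact (norm_pos_iff.2 h0).trans_le (hxC 0)
  have hχ : ∀ n, ∃ χ : StrongDual 𝕜 F, ‖χ‖ ≤ 1 ∧ χ (T (x n)) = ((‖T (x n)‖ : ℝ) : 𝕜) :=
    fun n => exists_dual_vector'' 𝕜 (T (x n))
  choose χ hχ1 hχT using hχ
  have hcb : ∀ n, ‖(χ n).comp T‖ ≤ ‖T‖ := fun n =>
    ((χ n).opNorm_comp_le T).trans (by
      calc ‖χ n‖ * ‖T‖ ≤ 1 * ‖T‖ := by gcongr; exact hχ1 n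
        _ = ‖T‖ := one_mul _)
  obtain ⟨c, φ, hφ, hc⟩ := hES (StrongDual 𝕜 E) (hRFD E hE) (fun n => (χ n).comp T) ‖T‖ hcb
  have hcz : ∀ z : E, Tendsto (fun n => χ (φ n) (T z)) atTop (𝓝 (c z)) := by
    intro z
    have h := hc (NormedSpace.inclusionInDoubleDual 𝕜 E z)
    simpa using h
  obtain ⟨χ₀, hχ₀⟩ := Pool.Agent.H85.JN.exists_ultra_limit (𝕜 := 𝕜) (E := F) (hyperfilter ℕ)
    (fun n => χ (φ n)) 1 (fun n => hχ1 _)
  have hle : (hyperfilter ℕ : Filter ℕ) ≤ atTop := by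
    rw [← Nat.cofinite_eq_atTop]
    exact hyperfilter_le_cofinite
  have hc₀ : ∀ z : E, χ₀ (T z) = c z := fun z =>
    tendsto_nhds_unique (hχ₀ (T z)) ((hcz z).mono_left hle)
  obtain ⟨ψ', hψ'⟩ : ∃ ψ' : ℕ → StrongDual 𝕜 F, ψ' = fun n => χ (φ n) - χ₀ := ⟨_, rfl⟩
  have hψb : ∀ n, ‖ψ' n‖ ≤ 1 + ‖χ₀‖ := fun n => by
    rw [hψ']
    exact (norm_sub_le _ _).trans (by gcongr; exact hχ1 _)
  have hψz : ∀ z : E, Tendsto (fun n => ψ' n (T z)) atTop (𝓝 0) := by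
    intro z
    have h := (hcz z).sub_const (c z)
    rw [sub_self] at h
    refine h.congr fun n => ?_
    rw [hψ']
    simp [hc₀]
  have hlow : ∀ᶠ n in atTop, δ / (2 * C₀) ≤ ‖(ψ' n).comp T‖ := by
    have h1 : Tendsto (fun n => ‖(χ₀.comp T) (x (φ n))‖) atTop (𝓝 0) := by
      have h := ((hxw (χ₀.comp T)).comp hφ.tendsto_atTop).norm
      rw [norm_zero] at h
      exact h
    filter_upwards [h1.eventually_lt_const (show (0 : ℝ) < δ / 2 by positivity)] with n hn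
    have h2 : ‖((ψ' n).comp T) (x (φ n))‖ ≤ ‖(ψ' n).comp T‖ * C₀ :=
      (((ψ' n).comp T).le_opNorm _).trans (by gcongr; exact hxC _)
    have h3 : δ / 2 ≤ ‖((ψ' n).comp T) (x (φ n))‖ := by
      have h4 : ((ψ' n).comp T) (x (φ n)) =
          ((‖T (x (φ n))‖ : ℝ) : 𝕜) - (χ₀.comp T) (x (φ n)) := by
        rw [hψ', ← hχT]
        rfl
      rw [h4]
      have h5 := norm_sub_norm_le (((‖T (x (φ n))‖ : ℝ) : 𝕜)) ((χ₀.comp T) (x (φ n)))
      rw [RCLike.norm_ofReal, abs_of_nonneg (norm_nonneg _)] at h5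
      have h6 := hTx (φ n)
      linarith
    rw [div_le_iff₀ (by positivity)]
    nlinarith
  obtain ⟨n₀, hn₀⟩ := eventually_atTop.1 hlow
  have hρ : 0 < δ / (2 * C₀) := by positivity
  have hpos : ∀ n, 0 < ‖(ψ' (n + n₀)).comp T‖ := fun n => hρ.trans_le (hn₀ _ (by omega))
  refine ⟨fun n => ((‖(ψ' (n + n₀)).comp T‖⁻¹ : ℝ) : 𝕜) • ψ' (n + n₀),
    (1 + ‖χ₀‖) / (δ / (2 * C₀)), fun n => ?_, fun n => ?_, fun z => ?_⟩
  · rw [norm_smul, RCLike.norm_ofReal, abs_of_nonneg (inv_nonneg.2 (norm_nonneg _)),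
      inv_mul_eq_div]
    exact div_le_div₀ (by positivity) (hψb _) hρ (hn₀ _ (by omega))
  · rw [ContinuousLinearMap.smul_comp, norm_smul, RCLike.norm_ofReal,
      abs_of_nonneg (inv_nonneg.2 (norm_nonneg _))]
    exact inv_mul_cancel₀ (hpos n).ne'
  · have h1 : Tendsto (fun n => ‖ψ' (n + n₀) (T z)‖ / (δ / (2 * C₀))) atTop (𝓝 0) := by
      have h := (((hψz z).comp (tendsto_add_atTop_nat n₀)).norm).div_const (δ / (2 * C₀))
      rw [norm_zero, zero_div] at h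
      exact h
    refine squeeze_zero_norm (fun n => ?_) h1
    rw [_root_.smul_apply, norm_smul, RCLike.norm_ofReal,
      abs_of_nonneg (inv_nonneg.2 (norm_nonneg _)), inv_mul_eq_div]
    exact div_le_div_of_nonneg_left (norm_nonneg _) hρ (hn₀ _ (by omega))

end Pool.Agent.H88.WR
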