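import Pool.Agent.H88.WR.Targets
import Pool.Agent.H55.WM.Main

/-!
WN1: norming vectors are weakly null.
-/

set_option autoImplicit false

open Filter Topology Set Pool.Agent.H85.WMP

namespace Pool.Agent.H88.WR

theorem pf_WN1 (𝕜 : Type) [RCLike 𝕜] (hREN : T_REN 𝕜) : T_WN1 𝕜 := by
  intro E _ _ F _ _ hAWR T φ M f x hφ hh hf hlim hx hhx
  by_contra hnull
  let a : ℕ → ℝ := fun n => 1 - 1 / ((n : ℝ) + 2)
  have ha_lt : ∀ n, a n < 1 := fun n => by
    have : (0 : ℝ) < 1 / ((n : ℝ) + 2) := by positivity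
    simp only [a]; linarith
  have ha_nn : ∀ n, 0 ≤ a n := fun n => by
    have : 1 / ((n : ℝ) + 2) ≤ 1 := by
      rw [div_le_one (by positivity)]
      have : (0 : ℝ) ≤ n := Nat.cast_nonneg n
      linarith
    simp only [a]; linarith
  have ha_mono : Monotone a := by
    intro m n hmn
    simp only [a]
    have h1 : ((m : ℝ)) ≤ n := by exact_mod_cast hmn
    have : 1 / ((n : ℝ) + 2) ≤ 1 / ((m : ℝ) + 2) := by
      apply one_div_le_one_div_of_le (by positivity)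
      linarith
    linarith
  have ha_tend : Tendsto a atTop (𝓝 1) := by
    have h1 : Tendsto (fun n : ℕ => 1 / ((n : ℝ) + 2)) atTop (𝓝 0) := by
      have := (tendsto_const_div_atTop_nhds_zero_nat (1 : ℝ)).comp (tendsto_add_atTop_nat 2)
      refine this.congr (fun n => ?_)
      simp
    have h2 := h1.const_sub 1
    simpa [a] using h2
  have hM : 0 ≤ M := (norm_nonneg _).trans (hφ 0)
  obtain ⟨ε, hεd⟩ : ∃ ε : ℝ, ε = 1 / (2 * (‖T‖ + 1)) := ⟨_, rfl⟩
  have hT0 := norm_nonneg T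
  have hε : 0 < ε := by rw [hεd]; positivity
  have hεT : ∀ z : E, ε * ‖T z‖ ≤ ‖z‖ / 2 := by
    intro z
    have h1 := T.le_opNorm z
    have h2 : ε * (‖T‖ * ‖z‖) ≤ ‖z‖ / 2 := by
      rw [hεd, div_mul_eq_mul_div, one_mul, div_le_div_iff₀ (by positivity) (by norm_num)]
      nlinarith [norm_nonneg z]
    exact (mul_le_mul_of_nonneg_left h1 hε.le).trans h2
  obtain ⟨F', i1, i2, e, he⟩ := hREN F (fun n => ((a n : ℝ) : 𝕜) • φ n) M ε (fun n => by
    rw [norm_smul, RCLike.norm_ofReal, abs_of_nonneg (ha_nn n)]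
    calc a n * ‖φ n‖ ≤ 1 * M := mul_le_mul (ha_lt n).le (hφ n) (norm_nonneg _) zero_le_one
      _ = M := one_mul M) hε
  have hW : HasWMP 𝕜 E F' := hAWR F' ⟨e⟩
  obtain ⟨T', hT'⟩ : ∃ T' : E →L[𝕜] F', ∀ z, e (T' z) = T z :=
    ⟨(e.symm : F →L[𝕜] F').comp T, fun z => by simp⟩
  have happ : ∀ n z, ‖(((a n : ℝ) : 𝕜) • φ n) (T z)‖ = a n * ‖φ n (T z)‖ := by
    intro n z
    rw [_root_.smul_apply, norm_smul, RCLike.norm_ofReal, abs_of_nonneg (ha_nn n)]
  have hhz : ∀ n z, ‖φ n (T z)‖ ≤ ‖z‖ := by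
    intro n z
    calc ‖φ n (T z)‖ = ‖((φ n).comp T) z‖ := rfl
      _ ≤ ‖(φ n).comp T‖ * ‖z‖ := ((φ n).comp T).le_opNorm z
      _ ≤ 1 * ‖z‖ := by gcongr; exact hh n
      _ = ‖z‖ := one_mul _
  have hnorm : ∀ z, ‖T' z‖ = max (ε * ‖T z‖) (⨆ n, a n * ‖φ n (T z)‖) := by
    intro z
    rw [he, hT']
    simp only [happ]
  have hbdd : ∀ z, BddAbove (Set.range fun n => a n * ‖φ n (T z)‖) := by
    intro z
    refine ⟨‖z‖, ?_⟩
    rintro _ ⟨n, rfl⟩
    calc a n * ‖φ n (T z)‖ ≤ 1 * ‖z‖ :=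
          mul_le_mul (ha_lt n).le (hhz n z) (norm_nonneg _) zero_le_one
      _ = ‖z‖ := one_mul _
  have hTz : ∀ z, ‖T' z‖ ≤ ‖z‖ := by
    intro z
    rw [hnorm]
    refine max_le ((hεT z).trans (by linarith [norm_nonneg z])) (ciSup_le fun n => ?_)
    calc a n * ‖φ n (T z)‖ ≤ 1 * ‖z‖ :=
          mul_le_mul (ha_lt n).le (hhz n z) (norm_nonneg _) zero_le_one
      _ = ‖z‖ := one_mul _
  have hTle : ‖T'‖ ≤ 1 := T'.opNorm_le_bound zero_le_one (fun z => by rw [one_mul]; exact hTz z)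
  have hlow : ∀ n, a n * ‖φ n (T (x n))‖ ≤ ‖T' (x n)‖ := by
    intro n
    rw [hnorm]
    exact (le_ciSup (hbdd (x n)) n).trans (le_max_right _ _)
  have hup : ∀ n, ‖T' (x n)‖ ≤ ‖T'‖ := fun n => by
    calc ‖T' (x n)‖ ≤ ‖T'‖ * ‖x n‖ := T'.le_opNorm _
      _ = ‖T'‖ := by rw [hx, mul_one]
  have hprod : Tendsto (fun n => a n * ‖φ n (T (x n))‖) atTop (𝓝 1) := by
    simpa using ha_tend.mul hhx
  have hT1 : ‖T'‖ = 1 := le_antisymm hTle
    (le_of_tendsto' hprod (fun n => (hlow n).trans (hup n)))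
  have hmax : IsMaximizing T' x := by
    refine ⟨hx, ?_⟩
    rw [hT1]
    exact tendsto_of_tendsto_of_tendsto_of_le_of_le hprod tendsto_const_nhds hlow
      (fun n => (hup n).trans hTle)
  obtain ⟨z, hz1, hz⟩ := hW T' ⟨x, hmax, hnull⟩
  have hfz := hlim z hz1
  set r : ℝ := (‖f z‖ + 1) / 2 with hr
  have hr1 : r < 1 := by rw [hr]; linarith
  have hfr : ‖f z‖ < r := by rw [hr]; linarith
  have hev : ∀ᶠ n in atTop, ‖φ n (T z)‖ < r := (hf z).norm.eventually_lt_const hfr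
  obtain ⟨N, hN⟩ := eventually_atTop.1 hev
  have hlt : ‖T' z‖ ≤ max (1 / 2) (max r (a N)) := by
    rw [hnorm]
    refine max_le ((hεT z).trans ?_) (ciSup_le fun i => ?_)
    · rw [hz1]; exact le_max_left _ _
    · refine le_trans ?_ (le_max_right _ _)
      by_cases hi : N ≤ i
      · refine le_trans ?_ (le_max_left _ _)
        calc a i * ‖φ i (T z)‖ ≤ 1 * ‖φ i (T z)‖ := by
              gcongr; exact (ha_lt _).le
          _ ≤ r := by rw [one_mul]; exact (hN _ hi).le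
      · refine le_trans ?_ (le_max_right _ _)
        calc a i * ‖φ i (T z)‖ ≤ a N * 1 := by
              gcongr
              · exact ha_nn N
              · exact ha_mono (not_le.1 hi).le
              · exact (hhz i z).trans hz1.le
          _ = a N := mul_one _
  rw [hz, hT1] at hlt
  exact absurd hlt (not_le.2 (max_lt (by norm_num) (max_lt hr1 (ha_lt N))))

end Pool.Agent.H88.WR
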