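import Pool.Agent.H88.WR.Targets
import Pool.Agent.H55.WM.Main

/-!
WN2: norms of sums.
-/

set_option autoImplicit false

open Filter Topology Set Pool.Agent.H85.WMP

namespace Pool.Agent.H88.WR

theorem pf_WN2 (𝕜 : Type) [RCLike 𝕜] (hWN1 : T_WN1 𝕜) : T_WN2 𝕜 := by
  intro E _ _ F _ _ hAWR T ψ M θ η hψ hg1' hg' hη
  obtain ⟨g, hgd⟩ : ∃ g : ℕ → StrongDual 𝕜 E, g = fun n => (ψ n).comp T := ⟨_, rfl⟩
  obtain ⟨f, hfd⟩ : ∃ f : StrongDual 𝕜 E, f = θ.comp T := ⟨_, rfl⟩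
  have hg1 : ∀ n, ‖g n‖ = 1 := fun n => by rw [hgd]; exact hg1' n
  have hg : ∀ x, Tendsto (fun n => g n x) atTop (𝓝 0) := fun x => by rw [hgd]; exact hg' x
  have hsum : ∀ n, (θ + ψ n).comp T = f + g n := fun n => by
    rw [hgd, hfd]; rfl
  have hM : 0 ≤ M := (norm_nonneg _).trans (hψ 0)
  simp only [hsum, ← hfd]
  by_contra hcon
  rw [not_eventually] at hcon
  obtain ⟨φ₀, hφ₀, hφη₀⟩ := extraction_of_frequently_atTop hcon
  simp only [not_le] at hφη₀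
  obtain ⟨c, -, φ₁, hφ₁, hc⟩ := tendsto_subseq_of_bounded
    (Metric.isBounded_Icc (0 : ℝ) (‖f‖ + 1)) (x := fun n => ‖f + g (φ₀ n)‖)
    (fun n => ⟨norm_nonneg _, by
      calc ‖f + g (φ₀ n)‖ ≤ ‖f‖ + ‖g (φ₀ n)‖ := norm_add_le _ _
        _ = ‖f‖ + 1 := by rw [hg1]⟩)
  set φ : ℕ → ℕ := φ₀ ∘ φ₁ with hφdef
  have hφ : StrictMono φ := hφ₀.comp hφ₁
  have hφη : ∀ n, max ‖f‖ 1 + η < ‖f + g (φ n)‖ := fun n => hφη₀ (φ₁ n)
  set ρ : ℝ := max ‖f‖ 1 + η with hρ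
  have hρ1 : 1 < ρ := by
    have := le_max_right ‖f‖ 1
    linarith
  have hρf : ‖f‖ < ρ := by
    have := le_max_left ‖f‖ 1
    linarith
  have hρ0 : 0 < ρ := by linarith
  have hρc : ρ ≤ c := ge_of_tendsto' hc (fun n => (hφη n).le)
  have hc0 : 0 < c := hρ0.trans_le hρc
  have hpos : ∀ n, 0 < ‖f + g (φ n)‖ := fun n => hρ0.trans (hφη n)
  let Φ : ℕ → StrongDual 𝕜 F := fun n => ((‖f + g (φ n)‖⁻¹ : ℝ) : 𝕜) • (θ + ψ (φ n))
  let h : ℕ → StrongDual 𝕜 E := fun n => ((‖f + g (φ n)‖⁻¹ : ℝ) : 𝕜) • (f + g (φ n))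
  have hΦh : ∀ n, (Φ n).comp T = h n := fun n => by
    simp only [Φ, h]
    rw [← hsum]
    rfl
  have hΦn : ∀ n, ‖Φ n‖ ≤ (‖θ‖ + M) / ρ := by
    intro n
    simp only [Φ]
    rw [norm_smul, RCLike.norm_ofReal, abs_of_nonneg (inv_nonneg.2 (norm_nonneg _)),
      inv_mul_eq_div]
    have h1 : ‖θ + ψ (φ n)‖ ≤ ‖θ‖ + M := (norm_add_le _ _).trans (by gcongr; exact hψ _)
    exact div_le_div₀ (by positivity) h1 hρ0 (hφη n).le
  have hh1 : ∀ n, ‖h n‖ = 1 := by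
    intro n
    simp only [h]
    rw [norm_smul, RCLike.norm_ofReal, abs_of_nonneg (inv_nonneg.2 (norm_nonneg _))]
    exact inv_mul_cancel₀ (hpos n).ne'
  have hhx : ∀ n (x : E), ‖h n x‖ ≤ (‖f x‖ + ‖g (φ n) x‖) / ρ := by
    intro n x
    simp only [h, _root_.smul_apply, norm_smul, RCLike.norm_ofReal]
    rw [abs_of_nonneg (inv_nonneg.2 (norm_nonneg _)), inv_mul_eq_div]
    have h1 : ‖(f + g (φ n)) x‖ ≤ ‖f x‖ + ‖g (φ n) x‖ := norm_add_le _ _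
    exact div_le_div₀ (by positivity) h1 hρ0 (hφη n).le
  have hx : ∀ n : ℕ, ∃ x : E, ‖x‖ = 1 ∧ 1 - 1 / ((n : ℝ) + 1) ≤ ‖h n x‖ := by
    intro n
    have h0 : (0 : ℝ) < 1 / ((n : ℝ) + 1) := by positivity
    refine Pool.Agent.H55.WM.exists_norming_vector ?_ ?_
    · have : 1 / ((n : ℝ) + 1) ≤ 1 := by
        rw [div_le_one (by positivity)]
        have : (0 : ℝ) ≤ n := Nat.cast_nonneg n
        linarith
      linarith
    · rw [hh1]; linarith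
  choose x hx1 hxh using hx
  have htend1 : Tendsto (fun n : ℕ => 1 - 1 / ((n : ℝ) + 1)) atTop (𝓝 1) := by
    have := (tendsto_one_div_add_atTop_nhds_zero_nat (𝕜 := ℝ)).const_sub 1
    simpa using this
  have hhle : ∀ n, ‖h n (x n)‖ ≤ 1 := fun n => by
    calc ‖h n (x n)‖ ≤ ‖h n‖ * ‖x n‖ := (h n).le_opNorm _
      _ = 1 := by rw [hh1, hx1, mul_one]
  have htend : Tendsto (fun n => ‖h n (x n)‖) atTop (𝓝 1) :=
    tendsto_of_tendsto_of_tendsto_of_le_of_le htend1 tendsto_const_nhds hxh hhle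
  have hhapp : ∀ n z, Φ n (T z) = h n z := fun n z => by rw [← hΦh]; rfl
  have hnull : WeaklyNull 𝕜 x := by
    refine hWN1 E F hAWR T Φ _ (((c⁻¹ : ℝ) : 𝕜) • f) x hΦn (fun n => by
      rw [hΦh, hh1]) ?_ ?_ hx1 ?_
    · intro z
      simp only [hhapp]
      have h1 : Tendsto (fun n => ((‖f + g (φ n)‖⁻¹ : ℝ) : 𝕜)) atTop (𝓝 ((c⁻¹ : ℝ) : 𝕜)) :=
        (RCLike.continuous_ofReal.tendsto _).comp (hc.inv₀ hc0.ne')
      have h2 : Tendsto (fun n => (f + g (φ n)) z) atTop (𝓝 (f z)) := by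
        have h3 := ((hg z).comp hφ.tendsto_atTop).const_add (f z)
        simpa using h3
      exact h1.smul h2
    · intro z hz
      rw [_root_.smul_apply, norm_smul, RCLike.norm_ofReal, abs_of_nonneg (inv_nonneg.2 hc0.le)]
      have hfz : ‖f z‖ ≤ ‖f‖ := by
        calc ‖f z‖ ≤ ‖f‖ * ‖z‖ := f.le_opNorm _
          _ = ‖f‖ := by rw [hz, mul_one]
      rw [inv_mul_lt_iff₀ hc0]
      linarith
    · simp only [hhapp]
      exact htend
  have hfx : Tendsto (fun n => (‖f (x n)‖ + 1) / ρ) atTop (𝓝 ((0 + 1) / ρ)) := by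
    have h1 : Tendsto (fun n => ‖f (x n)‖) atTop (𝓝 0) := by
      have := (hnull f).norm
      simpa using this
    exact (h1.add_const 1).div_const ρ
  have hle : (1 : ℝ) ≤ (0 + 1) / ρ := by
    refine le_of_tendsto_of_tendsto' htend hfx (fun n => ?_)
    refine (hhx n (x n)).trans ?_
    gcongr
    calc ‖g (φ n) (x n)‖ ≤ ‖g (φ n)‖ * ‖x n‖ := (g (φ n)).le_opNorm _
      _ = 1 := by rw [hg1, hx1, mul_one]
  rw [zero_add, le_div_iff₀ hρ0, one_mul] at hle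
  linarith

end Pool.Agent.H88.WR
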