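import Pool.Agent.H88.WR.Targets
import Pool.Agent.H55.WM.Main

/-!
WN3: the contradiction.
-/

set_option autoImplicit false

open Filter Topology Set Pool.Agent.H85.WMP

namespace Pool.Agent.H88.WR

/-- the state in the final inductive construction -/
structure CState (𝕜 : Type) [RCLike 𝕜] (E : Type) [NormedAddCommGroup E]
    [NormedSpace 𝕜 E] (F : Type) [NormedAddCommGroup F] [NormedSpace 𝕜 F] (T : E →L[𝕜] F) where
  k : ℕ
  θ : StrongDual 𝕜 F
  Y : Finset E
  n : ℕ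
  norm_φ : ‖θ.comp T‖ ≤ 2 - (1 / 2 : ℝ) ^ k

theorem pf_WN3 (𝕜 : Type) [RCLike 𝕜] (hWN1 : T_WN1 𝕜) (hWN2 : T_WN2 𝕜) : T_WN3 𝕜 := by
  classical
  intro E _ _ F _ _ hAWR T ψ M hψ hg1 hg
  have hy : ∀ n : ℕ, ∃ y : E, ‖y‖ = 1 ∧ 1 - 1 / ((n : ℝ) + 4) ≤ ‖((ψ n).comp T) y‖ := by
    intro n
    have h0 : (0 : ℝ) < 1 / ((n : ℝ) + 4) := by positivity
    refine Pool.Agent.H55.WM.exists_norming_vector ?_ ?_
    · have : 1 / ((n : ℝ) + 4) ≤ 1 := by
        rw [div_le_one (by positivity)]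
        have : (0 : ℝ) ≤ n := Nat.cast_nonneg n
        linarith
      linarith
    · rw [hg1]; linarith
  choose y hy1 hyg using hy
  have hyg34 : ∀ n, 3 / 4 ≤ ‖ψ n (T (y n))‖ := by
    intro n
    refine le_trans ?_ (hyg n)
    have : 1 / ((n : ℝ) + 4) ≤ 1 / 4 := by
      apply one_div_le_one_div_of_le (by norm_num)
      have : (0 : ℝ) ≤ n := Nat.cast_nonneg n
      linarith
    linarith
  have hynull : WeaklyNull 𝕜 y := by
    refine hWN1 E F hAWR T ψ M 0 y hψ (fun n => (hg1 n).le) ?_ ?_ hy1 ?_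
    · intro z
      simpa using hg z
    · intro z hz
      simp
    · have htend1 : Tendsto (fun n : ℕ => 1 - 1 / ((n : ℝ) + 4)) atTop (𝓝 1) := by
        have h1 : Tendsto (fun n : ℕ => 1 / ((n : ℝ) + 4)) atTop (𝓝 0) := by
          have := (tendsto_const_div_atTop_nhds_zero_nat (1 : ℝ)).comp (tendsto_add_atTop_nat 4)
          refine this.congr (fun n => ?_)
          simp
        simpa using h1.const_sub 1
      refine tendsto_of_tendsto_of_tendsto_of_le_of_le htend1 tendsto_const_nhds hyg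
        (fun n => ?_)
      calc ‖((ψ n).comp T) (y n)‖ ≤ ‖(ψ n).comp T‖ * ‖y n‖ := ((ψ n).comp T).le_opNorm _
        _ = 1 := by rw [hg1, hy1, mul_one]
  -- the inductive construction
  let R : CState 𝕜 E F T → CState 𝕜 E F T → Prop := fun p q =>
    q.k = p.k + 1 ∧ p.k ≤ q.n ∧ q.θ = p.θ + ψ q.n ∧ q.Y = insert (y q.n) p.Y ∧
      ‖p.θ (T (y q.n))‖ ≤ 1 / 8 ∧ ∀ z ∈ p.Y, ‖ψ q.n (T z)‖ ≤ (1 / 2 : ℝ) ^ p.k / 8
  have hstep : ∀ p : CState 𝕜 E F T, ∃ q, R p q := by
    intro p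
    have hη : (0 : ℝ) < (1 / 2 : ℝ) ^ (p.k + 1) := by positivity
    have e1 := hWN2 E F hAWR T ψ M p.θ _ hψ hg1 hg hη
    have e2 : ∀ᶠ n in atTop, ‖p.θ (T (y n))‖ ≤ 1 / 8 := by
      have := (hynull (p.θ.comp T)).norm
      rw [norm_zero] at this
      filter_upwards [this.eventually_lt_const (show (0 : ℝ) < 1 / 8 by norm_num)] with n hn
      exact hn.le
    have e3 : ∀ᶠ n in atTop, ∀ z ∈ p.Y, ‖ψ n (T z)‖ ≤ (1 / 2 : ℝ) ^ p.k / 8 := by
      rw [eventually_all_finset]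
      intro z _
      have := (hg z).norm
      rw [norm_zero] at this
      filter_upwards [this.eventually_lt_const
        (show (0 : ℝ) < (1 / 2 : ℝ) ^ p.k / 8 by positivity)] with n hn
      exact hn.le
    obtain ⟨n, h1, h2, h3, h4⟩ := (e1.and (e2.and (e3.and (eventually_ge_atTop p.k)))).exists
    refine ⟨⟨p.k + 1, p.θ + ψ n, insert (y n) p.Y, n, ?_⟩, rfl, h4, rfl, rfl, h2, h3⟩
    refine h1.trans ?_
    have h5 : max ‖p.θ.comp T‖ 1 ≤ 2 - (1 / 2 : ℝ) ^ p.k := by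
      refine max_le p.norm_φ ?_
      have : (1 / 2 : ℝ) ^ p.k ≤ 1 := pow_le_one₀ (by norm_num) (by norm_num)
      linarith
    have h6 : (1 / 2 : ℝ) ^ p.k = 2 * (1 / 2 : ℝ) ^ (p.k + 1) := by
      rw [pow_succ]; ring
    linarith
  obtain ⟨s, hs0, hs⟩ := Pool.Agent.H85.JN.exists_seq_rel R
    ⟨0, 0, ∅, 0, by simp⟩ hstep
  have hk : ∀ m, (s m).k = m := by
    intro m
    induction m with
    | zero => rw [hs0]
    | succ m ih => rw [(hs m).1, ih]
  have hbound : ∀ m, ‖(s m).θ.comp T‖ ≤ 2 := fun m => by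
    have h1 := (s m).norm_φ
    have : (0 : ℝ) < (1 / 2 : ℝ) ^ (s m).k := by positivity
    linarith
  have hmem : ∀ k m, k + 1 ≤ m → y (s (k + 1)).n ∈ (s m).Y := by
    intro k m hkm
    induction m, hkm using Nat.le_induction with
    | base => rw [(hs k).2.2.2.1]; exact Finset.mem_insert_self _ _
    | succ m _ ih => rw [(hs m).2.2.2.1]; exact Finset.mem_insert_of_mem ih
  have hlow : ∀ k m, k + 1 ≤ m →
      1 / 2 + (1 / 2 : ℝ) ^ m / 4 ≤ ‖(s m).θ (T (y (s (k + 1)).n))‖ := by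
    intro k m hkm
    induction m, hkm using Nat.le_induction with
    | base =>
      rw [(hs k).2.2.1]
      have h1 : ‖ψ (s (k + 1)).n (T (y (s (k + 1)).n))‖ ≤
          ‖((s k).θ + ψ (s (k + 1)).n) (T (y (s (k + 1)).n))‖ +
            ‖(s k).θ (T (y (s (k + 1)).n))‖ := by
        have h2 : ψ (s (k + 1)).n (T (y (s (k + 1)).n)) =
            ((s k).θ + ψ (s (k + 1)).n) (T (y (s (k + 1)).n)) -
              (s k).θ (T (y (s (k + 1)).n)) := by
          simp
        conv_lhs => rw [h2]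
        exact norm_sub_le _ _
      have h3 := hyg34 (s (k + 1)).n
      have h4 := (hs k).2.2.2.2.1
      have h5 : (1 / 2 : ℝ) ^ (k + 1) ≤ 1 / 2 := by
        rw [pow_succ]
        have : (1 / 2 : ℝ) ^ k ≤ 1 := pow_le_one₀ (by norm_num) (by norm_num)
        linarith
      linarith
    | succ m hm ih =>
      rw [(hs m).2.2.1]
      have h1 := (hs m).2.2.2.2.2 _ (hmem k m hm)
      rw [hk m] at h1
      have h2 : ‖(s m).θ (T (y (s (k + 1)).n))‖ ≤
          ‖((s m).θ + ψ (s (m + 1)).n) (T (y (s (k + 1)).n))‖ +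
            ‖ψ (s (m + 1)).n (T (y (s (k + 1)).n))‖ := by
        have h3 : (s m).θ (T (y (s (k + 1)).n)) =
            ((s m).θ + ψ (s (m + 1)).n) (T (y (s (k + 1)).n)) -
              ψ (s (m + 1)).n (T (y (s (k + 1)).n)) := by
          simp
        conv_lhs => rw [h3]
        exact norm_sub_le _ _
      have h4 : (1 / 2 : ℝ) ^ m = 2 * (1 / 2 : ℝ) ^ (m + 1) := by
        rw [pow_succ]; ring
      linarith
  obtain ⟨χ, hχ⟩ := Pool.Agent.H85.JN.exists_ultra_limit (hyperfilter ℕ)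
    (fun m => (s m).θ.comp T) 2 hbound
  have hχlow : ∀ k, 1 / 2 ≤ ‖χ (y (s (k + 1)).n)‖ := by
    intro k
    refine ge_of_tendsto (hχ (y (s (k + 1)).n)).norm ?_
    have h1 : ∀ᶠ m in atTop, 1 / 2 ≤ ‖((s m).θ.comp T) (y (s (k + 1)).n)‖ := by
      filter_upwards [eventually_ge_atTop (k + 1)] with m hm
      have h2 := hlow k m hm
      have : (0 : ℝ) < (1 / 2 : ℝ) ^ m := by positivity
      exact le_trans (by linarith) h2
    rw [← Nat.cofinite_eq_atTop] at h1
    exact h1.filter_mono hyperfilter_le_cofinite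
  have hn : Tendsto (fun k => (s (k + 1)).n) atTop atTop := by
    refine tendsto_atTop_mono (fun k => ?_) tendsto_id
    have := (hs k).2.1
    rw [hk k] at this
    exact this
  have hfin := ((hynull χ).comp hn).norm
  rw [norm_zero] at hfin
  have : (1 / 2 : ℝ) ≤ 0 := ge_of_tendsto' hfin (fun k => hχlow k)
  norm_num at this

end Pool.Agent.H88.WR
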