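import Pool.Agent.H1.WR.ES
import Pool.Agent.H1.WR.RFD
import Pool.Agent.H14.WR.FIN
import Pool.Agent.H14.WR.IND
import Pool.Agent.H14.WR.PRJ
import Pool.Agent.H14.WR.R1A
import Pool.Agent.H20.WR.DOM
import Pool.Agent.H20.WR.TNE
import Pool.Agent.H42.WR.ACI
import Pool.Agent.H42.WR.REN
import Pool.Agent.H42.WR.RFI
import Pool.Agent.H42.WR.JLM
import Pool.Agent.H49.WR.SPE
import Pool.Agent.H5.WR.FHS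
import Pool.Agent.H5.WR.PTU
import Pool.Agent.H5.WR.PTF
import Pool.Agent.H50.WR.CPA
import Pool.Agent.H50.WR.NCP
import Pool.Agent.H54.WR.C0S
import Pool.Agent.H54.WR.RFX
import Pool.Agent.H73.WR.JSQ
import Pool.Agent.H78.WR.OPB
import Pool.Agent.H79.WR.BP
import Pool.Agent.H79.WR.RNE
import Pool.Agent.H86.WR.AVG
import Pool.Agent.H86.WR.SML
import Pool.Agent.H89.WR.KEY
import Pool.Agent.H45.WR.BLK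
import Pool.Agent.H45.WR.OPM
import Pool.Agent.H45.WR.JTL
import Pool.Agent.H17.WR.CAU
import Pool.Agent.H17.WR.FAM
import Pool.Agent.H48.WR.HEL
import Pool.Agent.H48.WR.RED
import Pool.Agent.H94.WR.JTH
import Pool.Agent.H94.WR.JFN
import Pool.Agent.H11.WR.TAI
import Pool.Agent.H88.WR.WN1
import Pool.Agent.H88.WR.WN2
import Pool.Agent.H88.WR.WN3
import Pool.Agent.H88.WR.NCD
import Pool.Agent.H88.WR.Asm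

/-!
All rows of the board wmr_modules together.
-/

set_option autoImplicit false

open Filter Topology Set Pool.Agent.H85.WMP Pool.Agent.H88.WR

namespace Pool.Agent.H88.WR.All

variable (𝕜 : Type) [RCLike 𝕜]

theorem es : T_ES 𝕜 := Pool.Agent.H1.WR.pf_ES 𝕜

theorem rfd : T_RFD 𝕜 := Pool.Agent.H1.WR.pf_RFD 𝕜

theorem rfi : T_RFI 𝕜 := Pool.Agent.H42.WR.pf_RFI 𝕜

theorem aci : T_ACI 𝕜 := Pool.Agent.H42.WR.pf_ACI 𝕜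

theorem cpa : T_CPA 𝕜 := Pool.Agent.H50.WR.pf_CPA 𝕜 (es 𝕜)

theorem r1a : T_R1A 𝕜 := Pool.Agent.H14.WR.pf_R1A 𝕜

theorem fin : T_FIN 𝕜 := Pool.Agent.H14.WR.pf_FIN 𝕜

theorem ncp : T_NCP 𝕜 := Pool.Agent.H50.WR.pf_NCP 𝕜 (es 𝕜)

theorem ncd : T_NCD 𝕜 := Pool.Agent.H88.WR.pf_NCD 𝕜 (es 𝕜) (rfd 𝕜) (ncp 𝕜)

theorem ren : T_REN 𝕜 := Pool.Agent.H42.WR.pf_REN 𝕜

theorem red : T_RED 𝕜 := Pool.Agent.H48.WR.pf_RED 𝕜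

theorem rne : T_RNE 𝕜 := Pool.Agent.H79.WR.pf_RNE 𝕜

theorem wn1 : T_WN1 𝕜 := Pool.Agent.H88.WR.pf_WN1 𝕜 (ren 𝕜)

theorem wn2 : T_WN2 𝕜 := Pool.Agent.H88.WR.pf_WN2 𝕜 (wn1 𝕜)

theorem wn3 : T_WN3 𝕜 := Pool.Agent.H88.WR.pf_WN3 𝕜 (wn1 𝕜) (wn2 𝕜)

theorem dom : T_DOM 𝕜 := Pool.Agent.H20.WR.pf_DOM 𝕜 (red 𝕜)

theorem hel : T_HEL 𝕜 := Pool.Agent.H48.WR.pf_HEL 𝕜

theorem jth : T_JTH 𝕜 := Pool.Agent.H94.WR.pf_JTH 𝕜 (hel 𝕜)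

theorem jtl : T_JTL 𝕜 := Pool.Agent.H45.WR.pf_JTL 𝕜

theorem jlm : T_JLM 𝕜 := Pool.Agent.H42.WR.pf_JLM 𝕜

theorem jsq : T_JSQ 𝕜 := Pool.Agent.H73.WR.pf_JSQ 𝕜 (jlm 𝕜)

theorem jfn : T_JFN 𝕜 := Pool.Agent.H94.WR.pf_JFN 𝕜 (jlm 𝕜) (jsq 𝕜)

/-- James' theorem -/
theorem jam : T_JAM 𝕜 := Pool.Agent.H88.WR.pf_JAM 𝕜 (jth 𝕜) (jtl 𝕜) (jfn 𝕜)

theorem fhs : T_FHS := Pool.Agent.H5.WR.pf_FHS

theorem fsc : T_FSC := Pool.Agent.H5.WR.pf_FSC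

theorem ptu : T_PTU := Pool.Agent.H5.WR.pf_PTU

theorem ptd : T_PTD := Pool.Agent.H5.WR.pf_PTD ptu

theorem ptf : T_PTF := Pool.Agent.H5.WR.pf_PTF ptd fhs

theorem fnb : T_FNB := Pool.Agent.H5.WR.pf_FNB

theorem bp : T_BP 𝕜 := Pool.Agent.H79.WR.pf_BP 𝕜

theorem fam : T_FAM 𝕜 := Pool.Agent.H17.WR.pf_FAM 𝕜 fhs fsc ptf fnb (bp 𝕜)

theorem c0s : T_C0S 𝕜 := Pool.Agent.H54.WR.pf_C0S 𝕜

theorem tne : T_TNE 𝕜 := Pool.Agent.H20.WR.pf_TNE 𝕜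

theorem spe : T_SPE 𝕜 := Pool.Agent.H49.WR.pf_SPE 𝕜

theorem avg : T_AVG 𝕜 := Pool.Agent.H86.WR.pf_AVG 𝕜

theorem sml : T_SML 𝕜 := Pool.Agent.H86.WR.SML.pf_SML 𝕜 (avg 𝕜)

theorem prj : T_PRJ 𝕜 := Pool.Agent.H14.WR.pf_PRJ 𝕜

theorem blk : T_BLK 𝕜 := Pool.Agent.H45.WR.pf_BLK 𝕜

theorem tai : T_TAI 𝕜 := Pool.Agent.H11.WR.pf_TAI 𝕜 (sml 𝕜)

theorem cau : T_CAU 𝕜 := Pool.Agent.H17.WR.pf_CAU 𝕜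

theorem rfx : T_RFX 𝕜 := Pool.Agent.H54.WR.pf_RFX 𝕜 (tai 𝕜) (cau 𝕜) (prj 𝕜)

theorem ind : T_IND 𝕜 := Pool.Agent.H14.WR.pf_IND 𝕜

theorem opb : T_OPB 𝕜 := Pool.Agent.H78.WR.pf_OPB 𝕜 (rfx 𝕜) (ncp 𝕜) (tai 𝕜) (prj 𝕜)

theorem opm : T_OPM 𝕜 := Pool.Agent.H45.WR.pf_OPM 𝕜 (opb 𝕜) (blk 𝕜)

theorem key : T_KEY 𝕜 :=
  Pool.Agent.H89.WR.pf_KEY 𝕜 (fam 𝕜) (tne 𝕜) (spe 𝕜) (rfx 𝕜) (ind 𝕜) (opm 𝕜)

theorem tha : T_THA 𝕜 :=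
  Pool.Agent.H88.WR.pf_THA 𝕜 (cpa 𝕜) (aci 𝕜) (rfi 𝕜) (r1a 𝕜) (jam 𝕜) (ncp 𝕜) (ncd 𝕜) (wn3 𝕜)
    (dom 𝕜)

theorem thb : T_THB 𝕜 := Pool.Agent.H88.WR.pf_THB 𝕜 (cpa 𝕜) (aci 𝕜) (c0s 𝕜) (rne 𝕜) (key 𝕜)

/-- ranges isomorphic to the domain -/
theorem cor (E : Type) [NormedAddCommGroup E] [NormedSpace 𝕜 E] [CompleteSpace E] :
    AWR 𝕜 E E ↔ FiniteDimensional 𝕜 E := by
  constructor
  · intro h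
    rcases subsingleton_or_nontrivial E with hs | hn
    · infer_instance
    · exact (fin 𝕜 E).1 ((tha 𝕜 E E).1.1 h).2
  · intro hfin F' _ _ _ T
    rintro ⟨x, ⟨hx1, hx2⟩, -⟩
    have : ProperSpace E := FiniteDimensional.proper 𝕜 E
    obtain ⟨z, hz, φ, hφ, hφz⟩ := (isCompact_sphere (0 : E) 1).tendsto_subseq
      (fun n => by simpa using hx1 n : ∀ n, x n ∈ Metric.sphere (0 : E) 1)
    refine ⟨z, by simpa using hz, ?_⟩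
    have h1 : Tendsto (fun n => ‖T (x (φ n))‖) atTop (𝓝 ‖T z‖) :=
      ((T.continuous.tendsto z).comp hφz).norm
    exact tendsto_nhds_unique h1 (hx2.comp hφ.tendsto_atTop)

end Pool.Agent.H88.WR.All
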