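import Pool.Agent.H88.WR.Targets
import Pool.Agent.H55.WM.Main

/-!
Assembly of the theorems on the weak maximizing property.
-/

set_option autoImplicit false

open Filter Topology Set Pool.Agent.H85.WMP

namespace Pool.Agent.H88.WR

theorem pf_JAM (𝕜 : Type) [RCLike 𝕜] (hJTH : T_JTH 𝕜) (hJTL : T_JTL 𝕜) (hJFN : T_JFN 𝕜) :
    T_JAM 𝕜 := by
  intro E _ _ _ hatt
  by_contra hR
  obtain ⟨θ, f, x, hθ, hf, hx, h1, h2⟩ := hJTH E hR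
  obtain ⟨h, hh⟩ := hJFN E f θ hf hθ (hJTL E θ f x hθ hf hx h1 h2)
  obtain ⟨z, hz1, hz2⟩ := hatt h
  exact hh z hz1 hz2

theorem pf_KEY (𝕜 : Type) [RCLike 𝕜] (hFAM : T_FAM 𝕜) (hTNE : T_TNE 𝕜) (hSPE : T_SPE 𝕜)
    (hRFX : T_RFX 𝕜) (hIND : T_IND 𝕜) (hOPM : T_OPM 𝕜) : T_KEY 𝕜 := by
  intro F _ _ _ _ hF
  obtain ⟨M, hM, hM2⟩ := hFAM F hF
  obtain ⟨N, hN⟩ := hTNE M hM.empty
  obtain ⟨S⟩ := hSPE M N hN
  refine ⟨S.D, inferInstance, inferInstance, inferInstance, hIND M N hN S, hRFX M N hM hN S,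
    fun T => ?_⟩
  by_contra hT
  obtain ⟨m, y, δ, K, h1, h2, h3, h4⟩ := hOPM M N hM hN S F T hT
  exact hM2 m y δ K h1 h2 h3 h4

theorem wmp_of_allCompact {𝕜 : Type} [RCLike 𝕜] (hCPA : T_CPA 𝕜) (hACI : T_ACI 𝕜)
    {E : Type} [NormedAddCommGroup E] [NormedSpace 𝕜 E] {F : Type} [NormedAddCommGroup F]
    [NormedSpace 𝕜 F] (hR : Refl 𝕜 E) (hC : AllCompact 𝕜 E F) : AWR 𝕜 E F :=
  fun F' _ _ he => hCPA E F' hR (hACI E E F F' ⟨ContinuousLinearEquiv.refl 𝕜 E⟩ he hC)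

theorem pf_THA (𝕜 : Type) [RCLike 𝕜] (hCPA : T_CPA 𝕜) (hACI : T_ACI 𝕜) (hRFI : T_RFI 𝕜)
    (hR1A : T_R1A 𝕜) (hJAM : T_JAM 𝕜) (hNCP : T_NCP 𝕜) (hNCD : T_NCD 𝕜) (hWN3 : T_WN3 𝕜)
    (hDOM : T_DOM 𝕜) : T_THA 𝕜 := by
  intro E _ _ _ F _ _ _ _
  have hrefl : HasWMP 𝕜 E F → Refl 𝕜 E := fun hW => hJAM E (hR1A E F hW)
  refine ⟨⟨fun hA => ?_, fun h => wmp_of_allCompact hCPA hACI h.1 h.2⟩,
    ⟨fun hA => ?_, fun h E' _ _ he => ?_⟩⟩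
  · have hR := hrefl (hA F ⟨ContinuousLinearEquiv.refl 𝕜 F⟩)
    refine ⟨hR, fun T => ?_⟩
    by_contra hT
    obtain ⟨ψ, C, h1, h2, h3⟩ := hNCD E F hR T hT
    exact hWN3 E F hA T ψ C h1 h2 h3
  · have hR := hrefl (hA E ⟨ContinuousLinearEquiv.refl 𝕜 E⟩)
    refine ⟨hR, fun T => ?_⟩
    by_contra hT
    obtain ⟨x, C, δ, h1, h2, h3, h4⟩ := hNCP E F hR T hT
    exact hDOM E F hA T x C δ h1 h2 h3 h4
  · exact hCPA E' F (hRFI E E' he h.1)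
      (hACI E E' F F he ⟨ContinuousLinearEquiv.refl 𝕜 F⟩ h.2)

/-- a space with an isometric copy of `C(K)` -/
theorem wmp_iff_of_CK (𝕜 : Type) [RCLike 𝕜] (E : Type) [NormedAddCommGroup E]
    [NormedSpace 𝕜 E] (F : Type) [NormedAddCommGroup F] [NormedSpace 𝕜 F]
    (K : Type) [TopologicalSpace K] [CompactSpace K] [T2Space K] [Infinite K]
    (J : C(K, 𝕜) →ₗᵢ[𝕜] F) : HasWMP 𝕜 E F ↔ FiniteDimensional 𝕜 E := by
  constructor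
  · intro hW
    refine Pool.Agent.H55.WM.finiteDimensional_of_wmp hW ?_
    intro k f hk hkf
    obtain ⟨T, hT⟩ := Pool.Agent.H55.WM.enc_CK 𝕜 E K k f hk hkf
    refine ⟨J.toContinuousLinearMap.comp T, fun x => ?_⟩
    have h1 : ‖(J.toContinuousLinearMap.comp T) x‖ = ‖T x‖ := J.norm_map (T x)
    rw [h1]
    exact hT x
  · intro hfin T
    rintro ⟨x, ⟨hx1, hx2⟩, -⟩
    haveI : ProperSpace E := FiniteDimensional.proper 𝕜 E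
    obtain ⟨z, hz, φ, hφ, hφz⟩ := (isCompact_sphere (0 : E) 1).tendsto_subseq
      (fun n => by simpa using hx1 n : ∀ n, x n ∈ Metric.sphere (0 : E) 1)
    refine ⟨z, by simpa using hz, ?_⟩
    have h1 : Tendsto (fun n => ‖T (x (φ n))‖) atTop (𝓝 ‖T z‖) :=
      ((T.continuous.tendsto z).comp hφz).norm
    exact tendsto_nhds_unique h1 (hx2.comp hφ.tendsto_atTop)

theorem pf_THB (𝕜 : Type) [RCLike 𝕜] (hCPA : T_CPA 𝕜) (hACI : T_ACI 𝕜) (hC0S : T_C0S 𝕜)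
    (hRNE : T_RNE 𝕜) (hKEY : T_KEY 𝕜) : T_THB 𝕜 := by
  intro F _ _ _ _
  have hTest : HasC0 𝕜 F → ∃ (F' : Type) (_ : NormedAddCommGroup F') (_ : NormedSpace 𝕜 F')
      (_ : F' ≃L[𝕜] F), ∀ (E : Type) [NormedAddCommGroup E] [NormedSpace 𝕜 E]
      [CompleteSpace E], HasWMP 𝕜 E F' ↔ FiniteDimensional 𝕜 E := by
    intro h
    obtain ⟨S, c, hc, hS⟩ := hC0S F h
    obtain ⟨F', i1, i2, e, ⟨J⟩⟩ := hRNE C(OnePoint ℕ, 𝕜) F S c hc hS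
    exact ⟨F', i1, i2, e, fun E _ _ _ => wmp_iff_of_CK 𝕜 E F' (OnePoint ℕ) J⟩
  have hNot : ¬ HasC0 𝕜 F → ∃ (E : Type) (_ : NormedAddCommGroup E) (_ : NormedSpace 𝕜 E)
      (_ : CompleteSpace E), ¬ FiniteDimensional 𝕜 E ∧ Refl 𝕜 E ∧ AllCompact 𝕜 E F ∧
        AWR 𝕜 E F := by
    intro h
    obtain ⟨E, i1, i2, i3, h1, h2, h3⟩ := hKEY F h
    exact ⟨E, i1, i2, i3, h1, h2, h3, wmp_of_allCompact hCPA hACI h2 h3⟩
  have hB : HasC0 𝕜 F → ∀ (E : Type) [NormedAddCommGroup E] [NormedSpace 𝕜 E]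
      [CompleteSpace E], ¬ FiniteDimensional 𝕜 E → ¬ AWR 𝕜 E F := by
    intro h E _ _ _ hE hA
    obtain ⟨F', i1, i2, e, hF'⟩ := hTest h
    exact hE ((hF' E).1 (hA F' ⟨e⟩))
  refine ⟨⟨hTest, fun h => ?_⟩, ⟨hB, fun h => ?_⟩, ⟨fun h E _ _ _ hE hR hC =>
    hB h E hE (wmp_of_allCompact hCPA hACI hR hC), fun h => ?_⟩⟩
  · by_contra hn
    obtain ⟨E, i1, i2, i3, h1, h2, h3, h4⟩ := hNot hn
    obtain ⟨F', j1, j2, e, hF'⟩ := h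
    exact h1 ((hF' E).1 (h4 F' ⟨e⟩))
  · by_contra hn
    obtain ⟨E, i1, i2, i3, h1, h2, h3, h4⟩ := hNot hn
    exact h E h1 h4
  · by_contra hn
    obtain ⟨E, i1, i2, i3, h1, h2, h3, h4⟩ := hNot hn
    exact h E h1 h2 h3

end Pool.Agent.H88.WR
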